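import Mathlib
import Pool.Agent.KFold.CIMain

/-!
Irreducibility of the `k`-fold locus `X_k` of a general projection of a smooth irreducible complete
intersection `X ⊂ ℙ^N` over `ℂ` of dimension `n`, whenever the expected dimension
`N - 1 - k e` of `X_k` is positive, `e = N - n - 1`.
-/

namespace Pool.Agent.Results.MP_8af9f8_ag.CompleteIntersections

open MvPolynomial Pool.Agent.KFold

theorem result {N n k : ℕ} {I : Ideal (MvPolynomial (Fin (N + 1)) ℂ)} (hX : IsSmoothProj N n I)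
    (hn : n < N) (F : Fin (N - n) → MvPolynomial (Fin (N + 1)) ℂ)
    (hF : ∀ j, ∃ d, (F j).IsHomogeneous d) (hI : I = Ideal.span (Set.range F))
    (h1 : k * (N - n - 1) < N - 1) :
    ∃ Φ : MvPolynomial (Fin (N + 1)) ℂ, Φ ≠ 0 ∧ ∀ p : Fin (N + 1) → ℂ, eval p Φ ≠ 0 →
      (∃ f ∈ I, eval p f ≠ 0) ∧
      (KFold I p k = ∅ ∨ (vanishingIdeal ℂ (KFold I p k)).IsPrime) :=
  ci_main hX hn F hF hI (by omega)

end Pool.Agent.Results.MP_8af9f8_ag.CompleteIntersections
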