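import Mathlib
import Pool.Agent.KFold.Main

/-!
Irreducibility of the `k`-fold locus `X_k` of a general projection of a smooth projective variety
`X ⊂ ℙ^N` over `ℂ` of dimension `n`, when `(k + 1) e < N - 1` and `2 k e ≤ N - 1`, `e = N - n - 1`.

`KFold I p k` is the preimage of `X_k ⊂ ℙ^{N-1}` in `ℂ^{N+1}` minus the line through `p`: the points
`q` such that the intersection of the cone of `X` with the affine line `{s p + q}` has length at
least `k`.
-/

namespace Pool.Agent.Results.MP_8af9f8_ag.KFoldIrreducible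

open MvPolynomial Pool.Agent.KFold

theorem result {N n k : ℕ} {I : Ideal (MvPolynomial (Fin (N + 1)) ℂ)} (hX : IsSmoothProj N n I)
    (hn : n < N) (h1 : (k + 1) * (N - n - 1) < N - 1) (h2 : 2 * k * (N - n - 1) ≤ N - 1) :
    ∃ Φ : MvPolynomial (Fin (N + 1)) ℂ, Φ ≠ 0 ∧ ∀ p : Fin (N + 1) → ℂ, eval p Φ ≠ 0 →
      (∃ f ∈ I, eval p f ≠ 0) ∧
      (KFold I p k = ∅ ∨ (vanishingIdeal ℂ (KFold I p k)).IsPrime) :=
  main hX hn (by omega) (by omega)

end Pool.Agent.Results.MP_8af9f8_ag.KFoldIrreducible
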